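import Mathlib
import Pool.Prelude.Def_F_c31e40fa
import Pool.Agent.Y736.HG9

/-!
# The boundary of the Multibrot set at parameters with a positive Lyapunov exponent

Let `ψ` be the exterior map of the Multibrot set `M_d` (`M_d` is locally connected if and only if `ψ`
extends continuously to the unit circle). At every parameter `c₀` whose critical value has a positive
Lyapunov exponent `χ`, the maximum of Green's function of `M_d` over the disc of radius `r` and the
harmonic measure of this disc are both `r ^ (log d / χ + o(1))`, and if `M_d` is locally connected then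
the Carathéodory loop moves, near every angle over `c₀`, by at least `δ ^ (χ / log d + o(1))` in the
time `δ`.
-/

set_option autoImplicit false

open Filter Topology Set Metric MeasureTheory Complex N62a1eb23

namespace Pool.Agent.Results.MP_fcb70f_an.LyapunovParameters

open Pool.Agent.H713R2

/-- The polynomial `z ^ d + c`. -/
def f (d : ℕ) (c : ℂ) : ℂ → ℂ := fun z => z ^ d + c

/-- The critical value `c` of `z ^ d + c` has the Lyapunov exponent `χ > 0`. -/
def Lyapunov (d : ℕ) (χ : ℝ) (c : ℂ) : Prop :=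
  0 < χ ∧ c ∈ multibrotSet d ∧
    Tendsto (fun n : ℕ => Real.log ‖deriv ((f d c)^[n]) c‖ / n) atTop (𝓝 χ)

/-- The angles `t ∈ (0, 2π]` of the external rays landing at distance less than `r` from `c₀`. Up to
the factor `2π` its length is the harmonic measure (from infinity) of the disc of radius `r`. -/
def angles (ψ : ℂ → ℂ) (c₀ : ℂ) (r : ℝ) : Set ℝ :=
  {t | t ∈ Ioc 0 (2 * Real.pi) ∧ ∃ ζ ∈ ball c₀ r,
    Tendsto (fun ρ : ℝ => ψ (ρ * exp (t * I))) (𝓝[>] 1) (𝓝 ζ)}

/-- The harmonic measure, up to the factor `2π`. -/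
noncomputable def harm (ψ : ℂ → ℂ) (c₀ : ℂ) (r : ℝ) : ℝ := (volume (angles ψ c₀ r)).toReal

/-- The maximum of Green's function of the Multibrot set over a disc: Green's function is
`log ‖w‖` at the point `ψ w`. -/
noncomputable def green (ψ : ℂ → ℂ) (c₀ : ℂ) (r : ℝ) : ℝ :=
  sSup {x | ∃ w : ℂ, 1 < ‖w‖ ∧ ‖ψ w - c₀‖ ≤ r ∧ Real.log ‖w‖ = x}

/-- The derivative at `c₀` of the `n`-th iterate of the critical point as a function of the
parameter. -/
noncomputable def D' (d : ℕ) (c₀ : ℂ) (n : ℕ) : ℝ := ‖deriv (fun c : ℂ => (f d c)^[n] 0) c₀‖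

/-- At every parameter with Lyapunov exponent `χ > 0`, harmonic measure and Green's function have the
exponent `log d / χ`, and a continuous extension of the exterior map (local connectivity of the
Multibrot set) moves by at least `δ ^ (χ / log d + ε)` over every arc of radius `δ` about an angle of
`c₀`. At every parameter of the Multibrot set the lower local dimension of the harmonic measure is at
most `log d` over the upper exponential growth rate of `D'`; the parameters at which this rate is at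
least `χ` form a set of Hausdorff dimension at most `log d / χ`. -/
theorem result (d : ℕ) (hd : 2 ≤ d) :
    (∃ ψ : ℂ → ℂ, IsExteriorMap (multibrotSet d) ψ) ∧
    ∀ ψ : ℂ → ℂ, IsExteriorMap (multibrotSet d) ψ →
      (∀ (χ : ℝ) (c₀ : ℂ), Lyapunov d χ c₀ →
        Tendsto (fun r : ℝ => Real.log (harm ψ c₀ r) / Real.log r) (𝓝[>] 0)
          (𝓝 (Real.log d / χ)) ∧
        Tendsto (fun r : ℝ => Real.log (green ψ c₀ r) / Real.log r) (𝓝[>] 0)
          (𝓝 (Real.log d / χ)) ∧
        ∀ F : ℂ → ℂ, ContinuousOn F {w : ℂ | 1 ≤ ‖w‖} → (∀ w : ℂ, 1 < ‖w‖ → F w = ψ w) →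
          ∀ ζ : ℂ, ‖ζ‖ = 1 → F ζ = c₀ → ∀ ε : ℝ, 0 < ε → ∀ᶠ δ : ℝ in 𝓝[>] 0,
            ∃ ξ : ℂ, ‖ξ‖ = 1 ∧ ‖ξ - ζ‖ ≤ δ ∧ δ ^ (χ / Real.log d + ε) ≤ ‖F ξ - F ζ‖) ∧
      (∀ c₀ ∈ multibrotSet d, ∀ κ a : ℝ, 0 < κ → Real.log d < κ * a →
        (∃ᶠ n : ℕ in atTop, Real.exp (a * n) ≤ D' d c₀ n) →
        ∃ᶠ r : ℝ in 𝓝[>] 0, r ^ κ < harm ψ c₀ r) ∧
      ∀ χ : ℝ, 0 < χ →
        dimH {c₀ : ℂ | c₀ ∈ multibrotSet d ∧ ∀ a : ℝ, a < χ →
          ∃ᶠ n : ℕ in atTop, Real.exp (a * n) ≤ D' d c₀ n} ≤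
            ENNReal.ofReal (Real.log d / χ) := by
  obtain ⟨β, hβ⟩ := exists_beta hd
  refine ⟨⟨_, exteriorMap_of_beta hβ⟩, ?_⟩
  intro ψ hψ
  refine ⟨?_, ?_, ?_⟩
  · intro χ c₀ h
    have h' : Pool.Agent.Y298.CA.Lyap d χ c₀ := h
    refine ⟨Pool.Agent.Y736.HG.vol_exp hd h' hψ, Pool.Agent.Y736.HG.sup_exp hd h' hψ, ?_⟩
    intro F hF hE ζ hζ hFζ ε hε
    exact Pool.Agent.Y736.HG.loop hd h' hψ hF hE hζ hFζ hε
  · intro c₀ hc₀ κ a hκ ha hfr
    exact Pool.Agent.Y736.HG.low_dim hd hψ (Pool.Agent.Y736.HG.ae_land hd hψ) hc₀ hκ ha hfr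
  · intro χ hχ
    exact Pool.Agent.Y736.HG.dim_Big hd hχ

end Pool.Agent.Results.MP_fcb70f_an.LyapunovParameters
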