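import Mathlib
import Pool.Prelude.Def_F_c31e40fa
import Pool.Agent.W677.MC8

/-!
# The exterior map of the Multibrot sets near the parameters with a fixed point of multiplier `-1`

Let `d ≥ 3` and let `ψ` be the exterior map of the Multibrot set `M_d` (`M_d` is locally connected if
and only if `ψ` extends continuously to the unit circle); Green's function of `M_d` is `log |w|` at
`ψ(w)`. Let `z ^ d + c₀` have a fixed point with multiplier `-1`. The points of the level curve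
`{|w| = 1 + s}` are mapped to distance at least `a / (1 + log (1/s))` from `c₀`, and this is sharp: the
maximum of `|w| - 1` over the disc of radius `ρ` about `c₀` lies between two powers of `exp(-1/ρ)`. So
every continuous extension of `ψ` to the unit circle has at the angles of `c₀` (which exist) a modulus of
continuity of at least `c / log (1/δ)`; in particular it is not Hölder continuous.
-/

set_option autoImplicit false

open Filter Topology Set Metric Complex N62a1eb23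

namespace Pool.Agent.Results.MP_fcb70f_an.MultiplierMinusOne

open Pool.Agent.H713R2

/-- a continuous extension of the exterior map takes every boundary value -/
theorem exists_angle {K : Set ℂ} {c₀ : ℂ} (hc₀ : c₀ ∈ K) {ψ F : ℂ → ℂ} (hψ : IsExteriorMap K ψ)
    (hb : ∀ ρ : ℝ, 0 < ρ → ρ ≤ 1 → ∃ z : ℂ, 1 < ‖z‖ ∧ ‖ψ z - c₀‖ ≤ ρ)
    (hF : ContinuousOn F {z | 1 ≤ ‖z‖}) (hE : ∀ w, 1 < ‖w‖ → F w = ψ w) :
    ∃ ζ : ℂ, ‖ζ‖ = 1 ∧ F ζ = c₀ := by
  have hex : ∀ k : ℕ, ∃ z : ℂ, 1 < ‖z‖ ∧ ‖ψ z - c₀‖ ≤ 1 / ((k : ℝ) + 1) := by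
    intro k
    apply hb _ (by positivity)
    rw [div_le_one (by positivity)]
    linarith [(Nat.cast_nonneg k : (0 : ℝ) ≤ k)]
  choose z hz1 hz3 using hex
  have hbd : ∃ R : ℝ, ∀ k, ‖z k‖ ≤ R := by
    have h1 := hψ.infinity.eventually (Metric.ball_mem_nhds (1 : ℂ) (show (0 : ℝ) < 1 / 2 by norm_num))
    rw [← comap_norm_atTop, eventually_comap] at h1
    obtain ⟨R, hR⟩ := eventually_atTop.1 h1
    refine ⟨max R (2 * (‖c₀‖ + 1)), fun k => ?_⟩
    by_contra hcon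
    push Not at hcon
    rw [max_lt_iff] at hcon
    have h2 := hR _ hcon.1.le (z k) rfl
    have h0 : 0 < ‖z k‖ := by linarith [hz1 k]
    rw [dist_eq_norm] at h2
    have h3 : 1 / 2 < ‖ψ (z k) / z k‖ := by
      have := norm_sub_norm_le (1 : ℂ) (1 - ψ (z k) / z k)
      rw [sub_sub_cancel, norm_one, norm_sub_rev] at this
      linarith
    rw [norm_div, lt_div_iff₀ h0] at h3
    have h4 := norm_add_le (ψ (z k) - c₀) c₀
    rw [sub_add_cancel] at h4
    have h5 := hz3 k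
    have h6 : 1 / ((k : ℝ) + 1) ≤ 1 := by
      rw [div_le_one (by positivity)]
      linarith [(Nat.cast_nonneg k : (0 : ℝ) ≤ k)]
    linarith [hcon.2]
  obtain ⟨R, hR⟩ := hbd
  have hK : IsCompact ({w : ℂ | 1 ≤ ‖w‖} ∩ closedBall 0 R) := by
    apply (isCompact_closedBall (0 : ℂ) R).inter_left
    exact isClosed_le continuous_const continuous_norm
  obtain ⟨ζ, hζ, φ, hφ, hlim⟩ := hK.tendsto_subseq (x := z) (fun k => ⟨(hz1 k).le, by
    rw [mem_closedBall_zero_iff]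
    exact hR k⟩)
  have h1 : Tendsto (fun k => F (z (φ k))) atTop (𝓝 (F ζ)) := by
    have h2 := (hF ζ hζ.1).tendsto
    refine h2.comp ?_
    rw [tendsto_nhdsWithin_iff]
    exact ⟨hlim, Eventually.of_forall fun k => (hz1 _).le⟩
  have h2 : Tendsto (fun k => ψ (z k) - c₀) atTop (𝓝 0) := by
    rw [tendsto_zero_iff_norm_tendsto_zero]
    exact squeeze_zero (fun k => norm_nonneg _) hz3
      (tendsto_one_div_add_atTop_nhds_zero_nat (𝕜 := ℝ))
  have h3 : Tendsto (fun k => F (z (φ k))) atTop (𝓝 c₀) := by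
    have h4 := (h2.comp hφ.tendsto_atTop).add_const c₀
    rw [zero_add] at h4
    refine h4.congr fun k => ?_
    simp only [Function.comp]
    rw [hE _ (hz1 (φ k))]
    ring
  have hFζ : F ζ = c₀ := tendsto_nhds_unique h1 h3
  refine ⟨ζ, ?_, hFζ⟩
  by_contra hcon
  have h4 : 1 < ‖ζ‖ := lt_of_le_of_ne hζ.1 (Ne.symm hcon)
  have h5 : ψ ζ ∈ Kᶜ := by
    rw [← hψ.image]
    exact ⟨ζ, h4, rfl⟩
  rw [← hE _ h4, hFζ] at h5
  exact h5 hc₀

/-- The polynomial `z ^ d + c`. -/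
def f (d : ℕ) (c : ℂ) : ℂ → ℂ := fun z => z ^ d + c

/-- Sharp escape rates near the parameters with a fixed point of multiplier `-1`, and the modulus of
continuity of a continuous extension of the exterior map. -/
theorem result (d : ℕ) (hd3 : 3 ≤ d) :
    (∃ ψ : ℂ → ℂ, IsExteriorMap (multibrotSet d) ψ) ∧
    ∀ c₀ z₀ : ℂ, f d c₀ z₀ = z₀ → deriv (f d c₀) z₀ = -1 →
      ∃ a C ρ₀ : ℝ, 0 < a ∧ 0 < C ∧ 0 < ρ₀ ∧ ∀ ψ : ℂ → ℂ, IsExteriorMap (multibrotSet d) ψ →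
        -- the level curves stay away from `c₀`
        (∀ w : ℂ, 1 < ‖w‖ → ‖w‖ ≤ 2 → a ≤ ‖ψ w - c₀‖ * (1 + Real.log (1 / (‖w‖ - 1)))) ∧
        -- sharpness
        (∀ ρ : ℝ, 0 < ρ → ρ ≤ 1 → ∃ w : ℂ, 1 < ‖w‖ ∧ ‖ψ w - c₀‖ ≤ ρ ∧
          Real.log (1 / (‖w‖ - 1)) ≤ C / ρ) ∧
        -- the maximum of `|w| - 1` over the disc of radius `ρ` about `c₀`
        (∀ ρ : ℝ, 0 < ρ → ρ ≤ ρ₀ →
          (∀ w : ℂ, 1 < ‖w‖ → ‖ψ w - c₀‖ ≤ ρ → ‖w‖ - 1 ≤ Real.exp (1 - a / ρ)) ∧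
          ∃ w : ℂ, 1 < ‖w‖ ∧ ‖ψ w - c₀‖ ≤ ρ ∧ Real.exp (-(C / ρ)) ≤ ‖w‖ - 1) ∧
        -- continuous extensions
        ∀ F : ℂ → ℂ, ContinuousOn F {w : ℂ | 1 ≤ ‖w‖} → (∀ w : ℂ, 1 < ‖w‖ → F w = ψ w) →
          (∃ ζ : ℂ, ‖ζ‖ = 1 ∧ F ζ = c₀) ∧
          ∀ ζ : ℂ, ‖ζ‖ = 1 → F ζ = c₀ → ∀ r : ℝ, 1 < r → r ≤ 2 →
            a ≤ ‖F (r * ζ) - F ζ‖ * (1 + Real.log (1 / (r - 1))) := by
  have hd : 2 ≤ d := by omega
  constructor
  · obtain ⟨β, hβ⟩ := exists_beta hd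
    exact ⟨_, exteriorMap_of_beta hβ⟩
  intro c₀ z₀ hfix hder
  have hdr : (2 : ℝ) ≤ d := by exact_mod_cast hd
  have hdc : (d : ℂ) ≠ 0 := by
    have : d ≠ 0 := by omega
    exact_mod_cast this
  have hder' : (d : ℂ) * z₀ ^ (d - 1) = -1 := by
    have h1 : HasDerivAt (f d c₀) ((d : ℂ) * z₀ ^ (d - 1)) z₀ :=
      (hasDerivAt_pow d z₀).add_const c₀
    rw [← h1.deriv]
    exact hder
  have hA : z₀ ^ (d - 1) = -1 / d := by
    rw [eq_div_iff hdc, mul_comm]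
    exact hder'
  have hcc : Pool.Agent.W677.MC.cc d z₀ 0 = c₀ := by
    unfold Pool.Agent.W677.MC.cc
    rw [add_zero]
    unfold f at hfix
    linear_combination -hfix
  obtain ⟨a, ρ₀, ha, hρ₀, Ha⟩ := Pool.Agent.W677.MC.distG hd hA
  obtain ⟨C, hC, HC⟩ := Pool.Agent.W677.MC.nearG hd hA
  rw [hcc] at Ha HC
  refine ⟨a, C, min ρ₀ 1, ha, hC, by positivity, fun ψ hψ => ?_⟩
  obtain ⟨Ha1, Ha2⟩ := Ha ψ hψ
  have HCψ := HC ψ hψ
  -- `c₀` lies in the Multibrot set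
  have hc₀ : c₀ ∈ multibrotSet d := by
    by_contra hcon
    have h1 : c₀ ∈ (multibrotSet d)ᶜ := hcon
    rw [← hψ.image] at h1
    obtain ⟨w, hw, hwc⟩ := h1
    have hw' : 1 < ‖w‖ := hw
    have h2 := Ha1 w hw (by rw [hwc, sub_self, norm_zero]; exact hρ₀.le)
    have h3 := Ha2 w hw h2
    rw [hwc, sub_self, norm_zero, zero_mul] at h3
    linarith
  refine ⟨Ha2, HCψ, ?_, ?_⟩
  · intro ρ hρ hρρ
    constructor
    · intro w hw hwρ
      have h2 := Ha1 w hw (hwρ.trans (hρρ.trans (min_le_left _ _)))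
      have h3 := Ha2 w hw h2
      have h4 : 0 < ‖w‖ - 1 := by linarith
      have h5 : 0 ≤ Real.log (1 / (‖w‖ - 1)) := by
        apply Real.log_nonneg
        rw [le_div_iff₀ h4]
        linarith
      have h6 : a ≤ ρ * (1 + Real.log (1 / (‖w‖ - 1))) :=
        h3.trans (mul_le_mul_of_nonneg_right hwρ (by linarith))
      have h7 : a / ρ ≤ 1 + Real.log (1 / (‖w‖ - 1)) := by
        rw [div_le_iff₀ hρ]
        linarith
      rw [one_div, Real.log_inv] at h7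
      rw [← Real.log_le_iff_le_exp h4]
      linarith
    · obtain ⟨w, hw, h1, h2⟩ := HCψ ρ hρ (hρρ.trans (min_le_right _ _))
      refine ⟨w, hw, h1, ?_⟩
      have h4 : 0 < ‖w‖ - 1 := by linarith
      rw [one_div, Real.log_inv] at h2
      rw [← Real.le_log_iff_exp_le h4]
      linarith
  · intro F hF hE
    refine ⟨exists_angle hc₀ hψ (fun ρ hρ hρ1 => ?_) hF hE, ?_⟩
    · obtain ⟨w, hw, h1, -⟩ := HCψ ρ hρ hρ1
      exact ⟨w, hw, h1⟩
    · intro ζ hζ hFζ r hr1 hr2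
      have hn : ‖(r : ℂ) * ζ‖ = r := by
        rw [norm_mul, hζ, mul_one, Complex.norm_real, Real.norm_of_nonneg (by linarith)]
      have h1 := Ha2 (r * ζ) (by rw [hn]; exact hr1) (by rw [hn]; exact hr2)
      rw [hn] at h1
      rw [hE _ (by rw [hn]; exact hr1), hFζ]
      exact h1

end Pool.Agent.Results.MP_fcb70f_an.MultiplierMinusOne
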