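import Mathlib
import Pool.Prelude.Def_F_c31e40fa
import Pool.Agent.Y736.RN.L
import Pool.Agent.Y736.RN.M

/-!
# The Multibrot sets at the infinitely renormalizable parameters

Let `d ≥ 3` and let `ψ` be the exterior map of the Multibrot set `M_d` (`M_d` is locally connected if
and only if `ψ` extends continuously to the unit circle).  Outside a set of Hausdorff dimension zero,
`M_d` is flat at every infinitely renormalizable parameter: harmonic measure and Green's function decay
faster than every power of the radius, the derivatives of the iterates of the critical point with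
respect to the parameter grow subexponentially, and a continuous extension of `ψ` is not Hölder
continuous, with any exponent, at any angle of the parameter.
-/

set_option autoImplicit false

open Filter Topology Set Metric MeasureTheory Complex N62a1eb23

namespace Pool.Agent.Results.MP_fcb70f_an.RenormalizableDimension

open Pool.Agent.H713R2

/-- The polynomial `z ^ d + c`. -/
def f (d : ℕ) (c : ℂ) : ℂ → ℂ := fun z => z ^ d + c

/-- The angles `t ∈ (0, 2π]` of the external rays landing at distance less than `r` from `c₀`. Up to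
the factor `2π` its length is the harmonic measure (from infinity) of the disc of radius `r`. -/
def angles (ψ : ℂ → ℂ) (c₀ : ℂ) (r : ℝ) : Set ℝ :=
  {t | t ∈ Ioc 0 (2 * Real.pi) ∧ ∃ ζ ∈ ball c₀ r,
    Tendsto (fun ρ : ℝ => ψ (ρ * exp (t * I))) (𝓝[>] 1) (𝓝 ζ)}

/-- The harmonic measure, up to the factor `2π`. -/
noncomputable def harm (ψ : ℂ → ℂ) (c₀ : ℂ) (r : ℝ) : ℝ := (volume (angles ψ c₀ r)).toReal

/-- The maximum of Green's function of the Multibrot set over a disc: Green's function is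
`log ‖w‖` at the point `ψ w`. -/
noncomputable def green (ψ : ℂ → ℂ) (c₀ : ℂ) (r : ℝ) : ℝ :=
  sSup {x | ∃ w : ℂ, 1 < ‖w‖ ∧ ‖ψ w - c₀‖ ≤ r ∧ Real.log ‖w‖ = x}

/-- The derivative at `c₀` of the `n`-th iterate of the critical point as a function of the
parameter. -/
noncomputable def D' (d : ℕ) (c₀ : ℂ) (n : ℕ) : ℝ := ‖deriv (fun c : ℂ => (f d c)^[n] 0) c₀‖

/-- `g` is proper of degree at most `d` from the bounded open set `U` onto a set which contains the
closure of `U`. Polynomial-like maps of degree `d` have this property. -/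
def PolynomialLike (d : ℕ) (g : ℂ → ℂ) (U : Set ℂ) : Prop :=
  IsOpen U ∧ Bornology.IsBounded U ∧ closure U ⊆ g '' U ∧
    (∀ K ⊆ g '' U, IsCompact K → IsCompact {z | z ∈ U ∧ g z ∈ K}) ∧
    ∀ w ∈ g '' U, {z | z ∈ U ∧ g z = w}.encard ≤ d

/-- `z ↦ z ^ d + c` is renormalizable of period `p`. -/
def Renormalizable (d : ℕ) (c : ℂ) (p : ℕ) : Prop :=
  ∃ U : Set ℂ, PolynomialLike d ((f d c)^[p]) U ∧ (0 : ℂ) ∈ U ∧
    ∀ n : ℕ, 1 ≤ n → (f d c)^[n * p] 0 ∈ U

/-- `z ↦ z ^ d + c` is renormalizable of period `p` with bounds `C`: `U` contains the discs of some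
radius `r` about the points `f^[n p] 0`, and its image has diameter at most `C r`. Under a priori
bounds one has `Bounds d C c p` for a fixed `C` and infinitely many `p`. -/
def Bounds (d : ℕ) (C : ℝ) (c : ℂ) (p : ℕ) : Prop :=
  ∃ (U : Set ℂ) (r : ℝ), PolynomialLike d ((f d c)^[p]) U ∧ 0 < r ∧
    (∀ n : ℕ, ball ((f d c)^[n * p] 0) r ⊆ U) ∧
    ∀ z ∈ U, ∀ z' ∈ U, ‖(f d c)^[p] z - (f d c)^[p] z'‖ ≤ C * r

/-- Flatness at all scales: the harmonic measure and Green's function decay faster than every power,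
the derivatives with respect to the parameter grow subexponentially, and if `ψ` has a continuous
extension `F` to the circle (local connectivity of the Multibrot set) and `F ζ = c₀`, then the image
under `F` of every arc of small radius `δ` about `ζ` contains a point at distance at least `δ ^ α`
from `c₀`, for every `α > 0`. -/
def Flat (d : ℕ) (ψ : ℂ → ℂ) (c₀ : ℂ) : Prop :=
  (∀ κ : ℝ, 0 < κ → ∀ᶠ r : ℝ in 𝓝[>] 0, harm ψ c₀ r < r ^ κ ∧ green ψ c₀ r < r ^ κ) ∧
  (∀ a : ℝ, 0 < a → ∀ᶠ n : ℕ in atTop, D' d c₀ n < Real.exp (a * n)) ∧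
  ∀ F : ℂ → ℂ, ContinuousOn F {w : ℂ | 1 ≤ ‖w‖} → (∀ w : ℂ, 1 < ‖w‖ → F w = ψ w) →
    ∀ ζ : ℂ, ‖ζ‖ = 1 → F ζ = c₀ → ∀ α : ℝ, 0 < α → ∀ᶠ δ : ℝ in 𝓝[>] 0,
      ∃ ξ : ℂ, ‖ξ‖ = 1 ∧ ‖ξ - ζ‖ ≤ δ ∧ δ ^ α ≤ ‖F ξ - F ζ‖

/-- Let `d ≥ 3`. The exterior map `ψ` of the Multibrot set of degree `d` exists, and this set is flat
at every infinitely renormalizable parameter outside a set of Hausdorff dimension zero (in particular
this set is totally disconnected and has measure zero). It is flat at every parameter at which the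
bounds are subexponential in the period for infinitely many renormalization periods, in particular at
those with a priori bounds. For every period `p` the renormalizable parameters of period `p` at which
the harmonic measure (or Green's function) of the discs of radius `r` is at least `r ^ κ` for
arbitrarily small `r` have Hausdorff dimension at most `κ / p`, and those at which the upper exponent
of `D'` is at least `χ` have dimension at most `log d / (p χ)`. -/
theorem result (d : ℕ) (hd3 : 3 ≤ d) :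
    (∃ ψ : ℂ → ℂ, IsExteriorMap (multibrotSet d) ψ) ∧
    ∀ ψ : ℂ → ℂ, IsExteriorMap (multibrotSet d) ψ →
      (dimH {c : ℂ | {p : ℕ | Renormalizable d c p}.Infinite ∧ ¬ Flat d ψ c} = 0 ∧
        IsTotallyDisconnected {c : ℂ | {p : ℕ | Renormalizable d c p}.Infinite ∧ ¬ Flat d ψ c} ∧
        volume {c : ℂ | {p : ℕ | Renormalizable d c p}.Infinite ∧ ¬ Flat d ψ c} = 0) ∧
      (∀ c : ℂ, (∀ ε : ℝ, 0 < ε → {p : ℕ | Bounds d (Real.exp (ε * p)) c p}.Infinite) →
        Flat d ψ c) ∧
      ∀ p : ℕ, 1 ≤ p →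
        (∀ κ : ℝ, 0 < κ →
          dimH {c : ℂ | Renormalizable d c p ∧ ∃ᶠ r : ℝ in 𝓝[>] 0, r ^ κ ≤ harm ψ c r} ≤
            ENNReal.ofReal (κ / p) ∧
          dimH {c : ℂ | Renormalizable d c p ∧ ∃ᶠ r : ℝ in 𝓝[>] 0, r ^ κ ≤ green ψ c r} ≤
            ENNReal.ofReal (κ / p)) ∧
        ∀ χ : ℝ, 0 < χ →
          dimH {c : ℂ | Renormalizable d c p ∧ ∀ a : ℝ, a < χ →
            ∃ᶠ n : ℕ in atTop, Real.exp (a * n) ≤ D' d c n} ≤
              ENNReal.ofReal (Real.log d / (p * χ)) := by
  have hd : 2 ≤ d := by omega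
  obtain ⟨β, hβ⟩ := exists_beta hd
  refine ⟨⟨_, exteriorMap_of_beta hβ⟩, ?_⟩
  intro ψ hψ
  have hdim : dimH {c : ℂ | {p : ℕ | Renormalizable d c p}.Infinite ∧ ¬ Flat d ψ c} = 0 := by
    apply Pool.Agent.Y736.RN.dim_inf hd hψ
    rintro c ⟨h1, h2⟩
    refine ⟨h1, ?_⟩
    by_contra hcon
    push Not at hcon
    obtain ⟨p, hp, hp0⟩ := h1.exists_gt 0
    exact h2 (Pool.Agent.Y736.RN.not_big_flat hd hψ
      (Pool.Agent.Y736.RN.ren_mem (d := d) hp0 hp) hcon)
  refine ⟨⟨hdim, Pool.Agent.Y736.RN.totallyDisconnected_of_dimH (by rw [hdim]; norm_num),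
    Pool.Agent.Y736.RN.volume_zero_of_dimH (by rw [hdim]; norm_num)⟩, ?_, ?_⟩
  · intro c h
    obtain ⟨p, ⟨U, r, hU, hr, hball, hdiam⟩, hp0⟩ := (h 1 one_pos).exists_gt 0
    have hren : Renormalizable d c p := by
      refine ⟨U, hU, ?_, fun n _ => hball n (mem_ball_self hr)⟩
      have h1 := hball 0 (mem_ball_self hr)
      simpa using h1
    have hc := Pool.Agent.Y736.RN.ren_mem (d := d) hp0 hren
    apply Pool.Agent.Y736.RN.not_big_flat hd hψ hc
    apply Pool.Agent.Y736.RN.not_big_of_weak hd hψ hc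
    intro ε hε
    refine (h ε hε).mono ?_
    rintro q ⟨U, r, _, hr, hball, hdiam⟩
    exact ⟨U, r, hr, hball, hdiam⟩
  · intro p hp
    refine ⟨?_, ?_⟩
    · intro κ hκ
      refine ⟨(dimH_mono ?_).trans (Pool.Agent.Y736.RN.dim_big hd hp hψ hκ),
        (dimH_mono ?_).trans (Pool.Agent.Y736.RN.dim_big hd hp hψ hκ)⟩
      · rintro c ⟨h1, h2⟩
        exact ⟨h1, Pool.Agent.Y736.RN.big_of_vol hd hψ
          (Pool.Agent.Y736.RN.ren_mem (d := d) hp h1) hκ h2⟩
      · rintro c ⟨h1, h2⟩
        exact ⟨h1, Pool.Agent.Y736.RN.big_of_green h2⟩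
    · intro χ hχ
      exact Pool.Agent.Y736.RN.dim_deriv (d := d) hd hp hχ

end Pool.Agent.Results.MP_fcb70f_an.RenormalizableDimension
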