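import Mathlib
import Pool.Prelude.Def_F_c31e40fa
import Pool.Agent.H107.MLC.Ray

set_option autoImplicit false

open Filter Topology N62a1eb23

namespace Pool.Agent.Results.MP_fcb70f_an.SlowRaysMisiurewicz

open Pool.Agent.H713R2

/-- The polynomial `z ^ d + c`. -/
def f (d : ℕ) (c : ℂ) : ℂ → ℂ := fun z => z ^ d + c

/-- Misiurewicz parameters: the critical point `0` is preperiodic and not periodic. -/
def Misiurewicz (d : ℕ) (c : ℂ) : Prop :=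
  (∃ m n : ℕ, 1 ≤ n ∧ (f d c)^[m + n] 0 = (f d c)^[m] 0) ∧ ∀ p : ℕ, 1 ≤ p → (f d c)^[p] 0 ≠ 0

/-- The exterior conformal map `ψ` of the Multibrot set of degree `d ≥ 3` near a Misiurewicz
parameter `c₀`: the points `ψ w` of small height are within `C ‖ψ w - c₀‖ ^ (d / (d - 1))` of the
Multibrot set, with the corresponding bound of the derivative; hence on a parameter ray, in the time
`t = log (1 / (‖w‖ - 1))`, the power `- 1 / (d - 1)` of the distance to `c₀` is Lipschitz. -/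
theorem result (d : ℕ) (hd : 3 ≤ d) (c₀ : ℂ) (h₀ : Misiurewicz d c₀) :
    (∃ ψ : ℂ → ℂ, IsExteriorMap (multibrotSet d) ψ) ∧
    ∃ C : ℝ, 1 ≤ C ∧ ∀ ψ : ℂ → ℂ, IsExteriorMap (multibrotSet d) ψ →
      (∀ w : ℂ, 1 < ‖w‖ →
        ‖w‖ - 1 ≤ Real.exp (-(C * (1 + |Real.log ‖ψ w - c₀‖|) ^ 2)) →
        (‖w‖ - 1) * ‖deriv ψ w‖ ≤ C * ‖ψ w - c₀‖ ^ ((d : ℝ) / ((d : ℝ) - 1)) ∧
        Metric.infDist (ψ w) (multibrotSet d) ≤ C * ‖ψ w - c₀‖ ^ ((d : ℝ) / ((d : ℝ) - 1))) ∧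
      (∀ ζ : ℂ, ‖ζ‖ = 1 → ∀ t₁ t₂ : ℝ, C ≤ t₁ → t₁ ≤ t₂ →
        Real.exp (-(√t₁ / C)) ≤ ‖ψ ((1 + Real.exp (-t₁) : ℝ) * ζ) - c₀‖ →
        |‖ψ ((1 + Real.exp (-t₂) : ℝ) * ζ) - c₀‖ ^ (-(1 / ((d : ℝ) - 1))) -
          ‖ψ ((1 + Real.exp (-t₁) : ℝ) * ζ) - c₀‖ ^ (-(1 / ((d : ℝ) - 1)))| ≤ C * (t₂ - t₁)) := by
  have hd2 : 2 ≤ d := by omega
  obtain ⟨β, hβ⟩ := exists_beta hd2
  exact ⟨⟨_, exteriorMap_of_beta hβ⟩, Pool.Agent.H107.MLC.all_near hd2 h₀.1 h₀.2⟩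

end Pool.Agent.Results.MP_fcb70f_an.SlowRaysMisiurewicz
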